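import Mathlib.Algebra.TrivSqZeroExt.Basic
import Mathlib.RingTheory.TensorProduct.Maps
import Mathlib.RingTheory.FiniteType
import Mathlib.LinearAlgebra.FiniteDimensional.Basic
import Mathlib.LinearAlgebra.Basis.VectorSpace
import Mathlib.Tactic

/-!
# MP_133c3f_al : a Leibniz algebra is algebraic iff it is finite-dimensional

Over an arbitrary field `k`, the (left) Leibniz algebras of affine algebraic racks (schemes of
finite type) are exactly the finite-dimensional Leibniz algebras.
-/

namespace Pool.Agent.Results.MP_133c3f_al.AlgebraicIffFinite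

open scoped TensorProduct
open TrivSqZeroExt

universe u

/-! ### Definitions -/

section Defs

variable {k : Type u} [Field k] {A : Type u} [CommRing A] [Algebra k A]

/-- The operation on `S`-valued points of `Spec A` (algebra maps `A → S`) induced by a morphism
`Spec A × Spec A → Spec A`, given by its pullback `N : A → A ⊗ A`; `x`, `y` are the first and the
second argument. -/
noncomputable def op (N : A →ₐ[k] A ⊗[k] A) {S : Type u} [CommRing S] [Algebra k S]
    (x y : A →ₐ[k] S) : A →ₐ[k] S :=
  (Algebra.TensorProduct.productMap x y).comp N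

/-- The `k`-point `eps` regarded as an `S`-valued point. -/
noncomputable def pt (eps : A →ₐ[k] k) (S : Type u) [CommRing S] [Algebra k S] : A →ₐ[k] S :=
  (Algebra.ofId k S).comp eps

variable (k A)

/-- An affine algebraic rack `Q = Spec A` over `k`: `A` is a commutative `k`-algebra of finite
type, `eps` is evaluation at the unit `e`, `nab` is the pullback of `▷` and `nabInv` is the
pullback of `▷⁻¹`; the rack identities are required for all points with values in every
commutative `k`-algebra `S`. -/
structure AffineAlgebraicRack where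
  finiteType : Algebra.FiniteType k A
  /-- evaluation at the unit -/
  eps : A →ₐ[k] k
  /-- the pullback of `▷` -/
  nab : A →ₐ[k] A ⊗[k] A
  /-- the pullback of `▷⁻¹` -/
  nabInv : A →ₐ[k] A ⊗[k] A
  inv_left : ∀ (S : Type u) [CommRing S] [Algebra k S] (x y : A →ₐ[k] S),
    op nabInv (op nab x y) x = y
  inv_right : ∀ (S : Type u) [CommRing S] [Algebra k S] (x y : A →ₐ[k] S),
    op nab x (op nabInv y x) = y
  distrib : ∀ (S : Type u) [CommRing S] [Algebra k S] (x y z : A →ₐ[k] S),
    op nab x (op nab y z) = op nab (op nab x y) (op nab x z)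
  distrib_inv : ∀ (S : Type u) [CommRing S] [Algebra k S] (x y z : A →ₐ[k] S),
    op nabInv (op nabInv x y) z = op nabInv (op nabInv x z) (op nabInv y z)
  unit_left : ∀ (S : Type u) [CommRing S] [Algebra k S] (x : A →ₐ[k] S),
    op nab (pt eps S) x = x
  unit_right : ∀ (S : Type u) [CommRing S] [Algebra k S] (x : A →ₐ[k] S),
    op nab x (pt eps S) = pt eps S

variable {k A}

/-- `Der_k(A,k)`, the tangent space of `Spec A` at `eps`. -/
def DerAt (eps : A →ₐ[k] k) : Submodule k (A →ₗ[k] k) where
  carrier := {D | ∀ f g, D (f * g) = D f * eps g + eps f * D g}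
  add_mem' := by
    intro D E hD hE f g
    simp only [Set.mem_ofPred_eq] at hD hE
    simp only [LinearMap.add_apply, hD f g, hE f g]; ring
  zero_mem' := by intro f g; simp
  smul_mem' := by
    intro c D hD f g
    simp only [Set.mem_ofPred_eq] at hD
    simp only [LinearMap.smul_apply, hD f g, smul_eq_mul]; ring

/-- The bracket `(D ⊗ E) ∘ nab` of two `k`-linear forms on `A`. -/
noncomputable def bra (N : A →ₐ[k] A ⊗[k] A) (D E : A →ₗ[k] k) : A →ₗ[k] k :=
  (LinearMap.mul' k k) ∘ₗ (TensorProduct.map D E) ∘ₗ N.toLinearMap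

end Defs

/-- A left Leibniz algebra structure on the `k`-vector space `L`. -/
structure LeibnizAlgebra (k L : Type*) [Field k] [AddCommGroup L] [Module k L] where
  /-- the bracket -/
  br : L →ₗ[k] L →ₗ[k] L
  leibniz : ∀ X Y Z, br X (br Y Z) = br (br X Y) Z + br Y (br X Z)

/-- The Leibniz algebra `L` is algebraic: there are an affine algebraic rack `Q = Spec A` and a
linear isomorphism `L ≃ Der_k(A,k) = q_Q` carrying the bracket of `L` to `[D,E] = (D ⊗ E) ∘ ∇`. -/
def IsAlgebraic {k L : Type u} [Field k] [AddCommGroup L] [Module k L]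
    (q : LeibnizAlgebra k L) : Prop :=
  ∃ (A : Type u) (_ : CommRing A) (_ : Algebra k A) (Q : AffineAlgebraicRack k A)
    (Psi : L ≃ₗ[k] DerAt Q.eps),
    ∀ X Y : L, (Psi (q.br X Y) : A →ₗ[k] k) = bra Q.nab (Psi X) (Psi Y)

/-! ### Algebraic implies finite-dimensional -/

section Finite

variable {k : Type u} [Field k] {A : Type u} [CommRing A] [Algebra k A]

lemma der_one (eps : A →ₐ[k] k) (D : A →ₗ[k] k) (hD : D ∈ DerAt eps) : D 1 = 0 := by
  have h := hD 1 1
  simp only [mul_one, map_one, one_mul] at h
  linear_combination -h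

lemma finite_der (eps : A →ₐ[k] k) (hA : Algebra.FiniteType k A) :
    Module.Finite k (DerAt eps) := by
  obtain ⟨s, hs⟩ := hA.out
  let res : DerAt eps →ₗ[k] (s → k) :=
    { toFun := fun D i => (D : A →ₗ[k] k) i
      map_add' := by intro D E; rfl
      map_smul' := by intro c D; rfl }
  have hinj : Function.Injective res := by
    rw [injective_iff_map_eq_zero]
    intro D hD
    have key : ∀ f : A, (D : A →ₗ[k] k) f = 0 := by
      intro f
      have hf : f ∈ Algebra.adjoin k (s : Set A) := by rw [hs]; trivial
      induction hf using Algebra.adjoin_induction with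
      | mem x hx => exact congrFun hD ⟨x, hx⟩
      | algebraMap r =>
        rw [Algebra.algebraMap_eq_smul_one, map_smul, der_one eps _ D.2, smul_zero]
      | add x y _ _ hx hy => rw [map_add, hx, hy, add_zero]
      | mul x y _ _ hx hy => rw [D.2 x y, hx, hy]; simp
    ext f
    simpa using key f
  exact Module.Finite.of_injective res hinj

end Finite

/-! ### Finite-dimensional implies algebraic -/

section Construction

variable {k : Type u} [Field k] {n : ℕ} (c : Fin n → Fin n → Fin n → k)

/-- The coordinate algebra `k ⊕ k^n`, `(k^n)² = 0`. -/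
abbrev TA (k : Type u) [Field k] (n : ℕ) : Type u := TrivSqZeroExt k (Fin n → k)

/-- The generators. -/
def e (k : Type u) [Field k] {n : ℕ} (l : Fin n) : TA k n := inr (Pi.single l 1)

lemma e_mul_e (l m : Fin n) : e k l * e k m = 0 := inr_mul_inr _ _ _

/-- Algebra maps out of `TA k n`. -/
noncomputable def mk {S : Type u} [CommRing S] [Algebra k S] (v : Fin n → S)
    (hv : ∀ l m, v l * v m = 0) : TA k n →ₐ[k] S :=
  liftEquivOfComm ⟨Fintype.linearCombination k v, by
    intro x y
    simp only [Fintype.linearCombination_apply, Finset.sum_mul_sum]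
    refine Finset.sum_eq_zero fun i _ => Finset.sum_eq_zero fun j _ => ?_
    rw [smul_mul_smul_comm, hv, smul_zero]⟩

lemma mk_e {S : Type u} [CommRing S] [Algebra k S] (v : Fin n → S)
    (hv : ∀ l m, v l * v m = 0) (l : Fin n) : mk (k := k) v hv (e k l) = v l := by
  rw [mk, liftEquivOfComm_apply, e, lift_apply_inr]
  rw [Fintype.linearCombination_apply_single, one_smul]

lemma hom_ext {S : Type u} [CommRing S] [Algebra k S] (x y : TA k n →ₐ[k] S)
    (h : ∀ l, x (e k l) = y (e k l)) : x = y := by
  apply algHom_ext
  intro m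
  have : x.toLinearMap ∘ₗ inrHom k (Fin n → k) = y.toLinearMap ∘ₗ inrHom k (Fin n → k) := by
    apply LinearMap.pi_ext'
    intro l
    apply LinearMap.ext_ring
    exact h l
  exact LinearMap.congr_fun this m

/-- the bracket in coordinates -/
def W {S : Type u} [CommRing S] [Algebra k S] (X Y : Fin n → S) (l : Fin n) : S :=
  ∑ i, ∑ j, c i j l • (X i * Y j)

/-- pullback of `x ▷ y = y + [x,y]` -/
noncomputable def nabV (l : Fin n) : TA k n ⊗[k] TA k n :=
  1 ⊗ₜ e k l + ∑ i, ∑ j, c i j l • (e k i ⊗ₜ e k j)

/-- pullback of `y ▷⁻¹ x = y - [x,y]` -/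
noncomputable def nabIV (l : Fin n) : TA k n ⊗[k] TA k n :=
  e k l ⊗ₜ 1 - ∑ i, ∑ j, c i j l • (e k j ⊗ₜ e k i)

lemma nabV_mul (l m : Fin n) : nabV c l * nabV c m = 0 := by
  simp only [nabV, add_mul, mul_add, Finset.sum_mul, Finset.mul_sum, smul_mul_assoc,
    mul_smul_comm, Algebra.TensorProduct.tmul_mul_tmul, e_mul_e, TensorProduct.tmul_zero,
    smul_zero, Finset.sum_const_zero, add_zero]

lemma nabIV_mul (l m : Fin n) : nabIV c l * nabIV c m = 0 := by
  simp only [nabIV, sub_mul, mul_sub, Finset.sum_mul, Finset.mul_sum, smul_mul_assoc,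
    mul_smul_comm, Algebra.TensorProduct.tmul_mul_tmul, e_mul_e, TensorProduct.zero_tmul,
    smul_zero, Finset.sum_const_zero, sub_zero]

/-- `∇` -/
noncomputable def N : TA k n →ₐ[k] TA k n ⊗[k] TA k n := mk (nabV c) (nabV_mul c)
/-- `∇'` -/
noncomputable def NI : TA k n →ₐ[k] TA k n ⊗[k] TA k n := mk (nabIV c) (nabIV_mul c)

/-- coordinates of a point -/
def co {S : Type u} [CommRing S] [Algebra k S] (x : TA k n →ₐ[k] S) : Fin n → S :=
  fun l => x (e k l)

lemma co_mul {S : Type u} [CommRing S] [Algebra k S] (x : TA k n →ₐ[k] S) (i j : Fin n) :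
    co x i * co x j = 0 := by
  change x (e k i) * x (e k j) = 0
  rw [← map_mul, e_mul_e, map_zero]

lemma co_op {S : Type u} [CommRing S] [Algebra k S] (x y : TA k n →ₐ[k] S) :
    co (op (N c) x y) = co y + W c (co x) (co y) := by
  ext l
  simp only [co, op, AlgHom.comp_apply, N, mk_e, nabV, map_add, map_sum, map_smul,
    Algebra.TensorProduct.productMap_apply_tmul, map_one, one_mul, Pi.add_apply, W]

lemma co_opI {S : Type u} [CommRing S] [Algebra k S] (y x : TA k n →ₐ[k] S) :
    co (op (NI c) y x) = co y - W c (co x) (co y) := by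
  ext l
  simp only [co, op, AlgHom.comp_apply, NI, mk_e, nabIV, map_sub, map_sum, map_smul,
    Algebra.TensorProduct.productMap_apply_tmul, map_one, mul_one, Pi.sub_apply, W]
  congr 1
  refine Finset.sum_congr rfl fun i _ => Finset.sum_congr rfl fun j _ => ?_
  rw [mul_comm]

variable {S : Type u} [CommRing S] [Algebra k S]

lemma W_add_right (X Y Z : Fin n → S) : W c X (Y + Z) = W c X Y + W c X Z := by
  ext l
  simp only [W, Pi.add_apply, mul_add, smul_add, Finset.sum_add_distrib]

lemma W_add_left (X Y Z : Fin n → S) : W c (X + Y) Z = W c X Z + W c Y Z := by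
  ext l
  simp only [W, Pi.add_apply, add_mul, smul_add, Finset.sum_add_distrib]

lemma W_sub_right (X Y Z : Fin n → S) : W c X (Y - Z) = W c X Y - W c X Z := by
  ext l
  simp only [W, Pi.sub_apply, mul_sub, smul_sub, Finset.sum_sub_distrib]

lemma W_sub_left (X Y Z : Fin n → S) : W c (X - Y) Z = W c X Z - W c Y Z := by
  ext l
  simp only [W, Pi.sub_apply, sub_mul, smul_sub, Finset.sum_sub_distrib]

lemma W_zero_left (Z : Fin n → S) : W c 0 Z = 0 := by
  ext l; simp [W]

lemma W_zero_right (Z : Fin n → S) : W c Z 0 = 0 := by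
  ext l; simp [W]

lemma W_same (X Y : Fin n → S) (hX : ∀ i j, X i * X j = 0) : W c X (W c X Y) = 0 := by
  ext l
  simp only [W, Pi.zero_apply, Finset.mul_sum]
  refine Finset.sum_eq_zero fun i _ => Finset.sum_eq_zero fun j _ => ?_
  rw [Finset.sum_eq_zero, smul_zero]
  intro a _
  refine Finset.sum_eq_zero fun b _ => ?_
  rw [mul_smul_comm, ← mul_assoc, hX, zero_mul, smul_zero]

lemma W_same2 (X Y Z : Fin n → S) (hX : ∀ i j, X i * X j = 0) :
    W c (W c X Y) (W c X Z) = 0 := by
  ext l
  simp only [W, Pi.zero_apply, Finset.mul_sum, Finset.sum_mul]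
  refine Finset.sum_eq_zero fun i _ => Finset.sum_eq_zero fun j _ => ?_
  rw [Finset.sum_eq_zero, smul_zero]
  intro a _
  refine Finset.sum_eq_zero fun b _ => ?_
  refine Finset.sum_eq_zero fun a' _ => Finset.sum_eq_zero fun b' _ => ?_
  rw [smul_mul_smul_comm, mul_mul_mul_comm, hX, zero_mul, smul_zero]

lemma W_leibniz (hc : ∀ i j m l, ∑ a, c j m a * c i a l =
      ∑ a, c i j a * c a m l + ∑ a, c i m a * c j a l) (X Y Z : Fin n → S) :
    W c X (W c Y Z) = W c (W c X Y) Z + W c Y (W c X Z) := by
  ext l
  have h1 : W c X (W c Y Z) l = ∑ i, ∑ j, ∑ m, (∑ a, c j m a * c i a l) • (X i * Y j * Z m) := by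
    simp only [W, Finset.mul_sum, Finset.smul_sum, Finset.sum_smul]
    refine Finset.sum_congr rfl fun i _ => ?_
    rw [Finset.sum_comm]
    refine Finset.sum_congr rfl fun j _ => ?_
    rw [Finset.sum_comm]
    refine Finset.sum_congr rfl fun m _ => ?_
    refine Finset.sum_congr rfl fun a _ => ?_
    rw [mul_smul_comm, smul_smul, mul_comm (c i a l), mul_assoc]
  have h2 : W c (W c X Y) Z l = ∑ i, ∑ j, ∑ m, (∑ a, c i j a * c a m l) • (X i * Y j * Z m) := by
    simp only [W, Finset.sum_mul, Finset.smul_sum, Finset.sum_smul]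
    -- ∑ a ∑ m ∑ i ∑ j
    have : ∀ a : Fin n, (∑ m, ∑ i, ∑ j, c a m l • ((c i j a • (X i * Y j)) * Z m))
        = ∑ i, ∑ j, ∑ m, (c i j a * c a m l) • (X i * Y j * Z m) := by
      intro a
      rw [Finset.sum_comm]
      refine Finset.sum_congr rfl fun i _ => ?_
      rw [Finset.sum_comm]
      refine Finset.sum_congr rfl fun j _ => ?_
      refine Finset.sum_congr rfl fun m _ => ?_
      rw [smul_mul_assoc, smul_smul, mul_comm (c a m l)]
    simp only [this]
    rw [Finset.sum_comm]
    refine Finset.sum_congr rfl fun i _ => ?_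
    rw [Finset.sum_comm]
    refine Finset.sum_congr rfl fun j _ => ?_
    rw [Finset.sum_comm]
  have h3 : W c Y (W c X Z) l = ∑ i, ∑ j, ∑ m, (∑ a, c i m a * c j a l) • (X i * Y j * Z m) := by
    simp only [W, Finset.mul_sum, Finset.smul_sum, Finset.sum_smul]
    -- ∑ j ∑ a ∑ i ∑ m
    rw [Finset.sum_comm' (s := Finset.univ) (t := fun _ => Finset.univ) (t' := Finset.univ)
      (s' := fun _ => Finset.univ) (by simp)] 
    have : ∀ a : Fin n, (∑ j, ∑ i, ∑ m, c j a l • (Y j * (c i m a • (X i * Z m))))
        = ∑ i, ∑ j, ∑ m, (c i m a * c j a l) • (X i * Y j * Z m) := by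
      intro a
      rw [Finset.sum_comm]
      refine Finset.sum_congr rfl fun i _ => ?_
      refine Finset.sum_congr rfl fun j _ => ?_
      refine Finset.sum_congr rfl fun m _ => ?_
      rw [mul_smul_comm, smul_smul, mul_comm (c j a l)]
      congr 1; ring
    simp only [this]
    rw [Finset.sum_comm]
    refine Finset.sum_congr rfl fun i _ => ?_
    rw [Finset.sum_comm]
    refine Finset.sum_congr rfl fun j _ => ?_
    rw [Finset.sum_comm]
  rw [Pi.add_apply, h1, h2, h3]
  simp only [← Finset.sum_add_distrib]
  refine Finset.sum_congr rfl fun i _ => Finset.sum_congr rfl fun j _ =>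
    Finset.sum_congr rfl fun m _ => ?_
  rw [hc i j m l, add_smul]

/-- The rack. -/
noncomputable def rack (hc : ∀ i j m l, ∑ a, c j m a * c i a l =
      ∑ a, c i j a * c a m l + ∑ a, c i m a * c j a l) : AffineAlgebraicRack k (TA k n) where
  finiteType := by
    have : Module.Finite k (TA k n) := by
      change Module.Finite k (k × (Fin n → k))
      infer_instance
    infer_instance
  eps := fstHom k k (Fin n → k)
  nab := N c
  nabInv := NI c
  inv_left := by
    intro S _ _ x y
    apply hom_ext
    intro l
    have h : co (op (NI c) (op (N c) x y) x) = co y := by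
      rw [co_opI, co_op, W_add_right, W_same c _ _ (co_mul x)]
      abel
    exact congrFun h l
  inv_right := by
    intro S _ _ x y
    apply hom_ext
    intro l
    have h : co (op (N c) x (op (NI c) y x)) = co y := by
      rw [co_op, co_opI, W_sub_right, W_same c _ _ (co_mul x)]
      abel
    exact congrFun h l
  distrib := by
    intro S _ _ x y z
    apply hom_ext
    intro l
    have h : co (op (N c) x (op (N c) y z)) = co (op (N c) (op (N c) x y) (op (N c) x z)) := by
      simp only [co_op, W_add_right, W_add_left]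
      rw [W_same2 c _ _ _ (co_mul x), W_leibniz c hc (co x) (co y) (co z)]
      abel
    exact congrFun h l
  distrib_inv := by
    intro S _ _ x y z
    apply hom_ext
    intro l
    have h : co (op (NI c) (op (NI c) x y) z) =
        co (op (NI c) (op (NI c) x z) (op (NI c) y z)) := by
      simp only [co_opI, W_sub_right, W_sub_left]
      rw [W_same2 c _ _ _ (co_mul z), W_leibniz c hc (co z) (co y) (co x)]
      abel
    exact congrFun h l
  unit_left := by
    intro S _ _ x
    apply hom_ext
    intro l
    have h0 : co (pt (fstHom k k (Fin n → k)) S) = 0 := by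
      ext l; simp [co, pt, e]
    have h : co (op (N c) (pt (fstHom k k (Fin n → k)) S) x) = co x := by
      rw [co_op, h0, W_zero_left, add_zero]
    exact congrFun h l
  unit_right := by
    intro S _ _ x
    apply hom_ext
    intro l
    have h0 : co (pt (fstHom k k (Fin n → k)) S) = 0 := by
      ext l; simp [co, pt, e]
    have h : co (op (N c) x (pt (fstHom k k (Fin n → k)) S)) =
        co (pt (fstHom k k (Fin n → k)) S) := by
      rw [co_op, h0, W_zero_right, add_zero]
    exact congrFun h l

/-- The linear form on `TA k n` with given values on the generators (zero on `1`). -/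
noncomputable def form (k : Type u) [Field k] (n : ℕ) : (Fin n → k) →ₗ[k] (TA k n →ₗ[k] k) where
  toFun X := (Fintype.linearCombination k X) ∘ₗ (sndHom k (Fin n → k))
  map_add' := by
    intro X Y
    ext a
    simp [Fintype.linearCombination_apply, mul_add, Finset.sum_add_distrib]
  map_smul' := by
    intro t X
    ext a
    simp [Fintype.linearCombination_apply, Finset.mul_sum, mul_left_comm]

lemma form_e (X : Fin n → k) (l : Fin n) : form k n X (e k l) = X l := by
  simp [form, e]

lemma form_one (X : Fin n → k) : form k n X 1 = 0 := by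
  simp [form]

/-- `k^n ≃ Der_k(TA, k)` -/
noncomputable def formEquiv (k : Type u) [Field k] (n : ℕ) :
    (Fin n → k) ≃ₗ[k] DerAt (fstHom k k (Fin n → k)) := by
  refine LinearEquiv.ofBijective ((form k n).codRestrict _ ?_) ⟨?_, ?_⟩
  · intro X f g
    simp only [form, LinearMap.coe_mk, AddHom.coe_mk, LinearMap.comp_apply, sndHom_apply,
      snd_mul, fstHom_apply, map_add, map_smul, smul_eq_mul]
    rw [op_smul_eq_smul, map_smul, smul_eq_mul]
    ring
  · intro X Y h
    ext l
    have h' : form k n X = form k n Y := congrArg Subtype.val h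
    rw [← form_e X l, ← form_e Y l, h']
  · intro D
    refine ⟨fun l => (D : TA k n →ₗ[k] k) (e k l), ?_⟩
    apply Subtype.ext
    change form k n _ = (D : TA k n →ₗ[k] k)
    apply TrivSqZeroExt.linearMap_ext
    · intro r
      have h1 : (inl r : TA k n) = r • (1 : TA k n) := by
        ext <;> simp
      rw [h1, map_smul, map_smul, form_one, der_one _ _ D.2]
    · intro m
      have : (form k n fun l => (D : TA k n →ₗ[k] k) (e k l)) ∘ₗ inrHom k (Fin n → k) =
          (D : TA k n →ₗ[k] k) ∘ₗ inrHom k (Fin n → k) := by
        apply LinearMap.pi_ext'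
        intro l
        apply LinearMap.ext_ring
        exact form_e _ l
      exact LinearMap.congr_fun this m

lemma formEquiv_coe (X : Fin n → k) : (formEquiv k n X : TA k n →ₗ[k] k) = form k n X := rfl

lemma form_W (X Y : Fin n → k) : form k n (W c X Y) = bra (N c) (form k n X) (form k n Y) := by
  apply TrivSqZeroExt.linearMap_ext
  · intro r
    have h1 : (inl r : TA k n) = r • (1 : TA k n) := by
      ext <;> simp
    rw [h1, map_smul, map_smul, form_one]
    simp only [bra, LinearMap.comp_apply, AlgHom.toLinearMap_apply, map_one,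
      Algebra.TensorProduct.one_def, TensorProduct.map_tmul, form_one, TensorProduct.zero_tmul,
      map_zero]
  · intro m
    have : (form k n (W c X Y)) ∘ₗ inrHom k (Fin n → k) =
        (bra (N c) (form k n X) (form k n Y)) ∘ₗ inrHom k (Fin n → k) := by
      apply LinearMap.pi_ext'
      intro l
      apply LinearMap.ext_ring
      change form k n (W c X Y) (e k l) = bra (N c) (form k n X) (form k n Y) (e k l)
      rw [form_e]
      simp only [bra, LinearMap.comp_apply, AlgHom.toLinearMap_apply, N, mk_e, nabV, map_add,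
        map_sum, map_smul, TensorProduct.map_tmul, form_one, form_e, TensorProduct.zero_tmul,
        map_zero, zero_add, LinearMap.mul'_apply, W]
    exact LinearMap.congr_fun this m

end Construction

/-- **Answer to Q1 of MP_133c3f_al.** Over any field `k` (any characteristic), a Leibniz algebra
is algebraic if and only if it is finite-dimensional. -/
theorem result {k L : Type u} [Field k] [AddCommGroup L] [Module k L] (q : LeibnizAlgebra k L) :
    IsAlgebraic q ↔ Module.Finite k L := by
  constructor
  · rintro ⟨A, _, _, Q, Psi, _⟩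
    have := finite_der Q.eps Q.finiteType
    exact Module.Finite.equiv Psi.symm
  · intro hfin
    let n := Module.finrank k L
    let b : Module.Basis (Fin n) k L := Module.finBasis k L
    let c : Fin n → Fin n → Fin n → k := fun i j l => b.repr (q.br (b i) (b j)) l
    have hbr : ∀ i j, q.br (b i) (b j) = ∑ l, c i j l • b l := fun i j => (b.sum_repr _).symm
    have hc : ∀ i j m l, ∑ a, c j m a * c i a l =
      ∑ a, c i j a * c a m l + ∑ a, c i m a * c j a l := by
      intro i j m l
      have h := congrArg (fun v => b.repr v l) (q.leibniz (b i) (b j) (b m))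
      simp only [map_add, Finsupp.add_apply] at h
      rw [hbr j m, hbr i j, hbr i m] at h
      simp only [map_sum, map_smul, LinearMap.sum_apply, LinearMap.smul_apply,
        Finsupp.coe_finsetSum, Finset.sum_apply, Finsupp.smul_apply, smul_eq_mul] at h
      exact h
    refine ⟨TA k n, inferInstance, inferInstance, rack c hc,
      b.equivFun.trans (formEquiv k n), ?_⟩
    intro X Y
    have hco : b.equivFun (q.br X Y) = W c (b.equivFun X) (b.equivFun Y) := by
      have h1 : q.br X Y = ∑ i, ∑ j, (b.repr X i * b.repr Y j) • q.br (b i) (b j) := by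
        conv_lhs => rw [← b.sum_repr X, ← b.sum_repr Y]
        simp only [map_sum, map_smul, LinearMap.sum_apply, LinearMap.smul_apply,
          Finset.smul_sum, smul_smul]
        rw [Finset.sum_comm]
        refine Finset.sum_congr rfl fun i _ => Finset.sum_congr rfl fun j _ => ?_
        rw [mul_comm]
      ext l
      rw [Module.Basis.equivFun_apply, h1]
      simp only [map_sum, map_smul, Finsupp.coe_finsetSum, Finset.sum_apply,
        Finsupp.smul_apply, smul_eq_mul, W, Module.Basis.equivFun_apply]
      refine Finset.sum_congr rfl fun i _ => Finset.sum_congr rfl fun j _ => ?_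
      rw [mul_comm]
    change (form k n (b.equivFun (q.br X Y))) =
      bra (N c) (form k n (b.equivFun X)) (form k n (b.equivFun Y))
    rw [hco]
    exact form_W c _ _

end Pool.Agent.Results.MP_133c3f_al.AlgebraicIffFinite
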